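import Mathlib

/-!
# A Hom-Ext quiver whose relations are not monomial

`kQ`-modules are written as representations of the finite quiver `Q` with chosen bases.  The
complex `delta X Y : C0 X Y → C1 X Y` has kernel `Hom(X, Y)` and cokernel `Ext¹(X, Y)`
(the standard resolution over the path algebra).
-/

universe u

noncomputable section

namespace Pool.Agent.Results.MP_2a1499_al.CommutativeSquare

open Matrix

/-- A finite quiver with vertices `Fin n` and arrows `Fin m`. -/
structure Qv where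
  n : ℕ
  m : ℕ
  src : Fin m → Fin n
  tgt : Fin m → Fin n

/-- The quiver has no oriented cycle. -/
def Qv.Acyclic (Q : Qv) : Prop :=
  ∀ v, ¬ Relation.TransGen (fun x y => ∃ a, Q.src a = x ∧ Q.tgt a = y) v v

/-- A finite-dimensional representation of `Q` over `k` (a `kQ`-module), with chosen bases. -/
structure Rep (k : Type u) [Field k] (Q : Qv) where
  dim : Fin Q.n → ℕ
  mat : ∀ a : Fin Q.m, Matrix (Fin (dim (Q.tgt a))) (Fin (dim (Q.src a))) k

variable {k : Type u} [Field k] {Q : Qv}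

/-- Families of linear maps `X_v → Y_v`. -/
def C0 (X Y : Rep k Q) : Type u := ∀ v : Fin Q.n, Matrix (Fin (Y.dim v)) (Fin (X.dim v)) k

/-- Families of linear maps `X_{src a} → Y_{tgt a}`. -/
def C1 (X Y : Rep k Q) : Type u :=
  ∀ a : Fin Q.m, Matrix (Fin (Y.dim (Q.tgt a))) (Fin (X.dim (Q.src a))) k

instance C0.grp (X Y : Rep k Q) : AddCommGroup (C0 X Y) :=
  (inferInstance : AddCommGroup (∀ v : Fin Q.n, Matrix (Fin (Y.dim v)) (Fin (X.dim v)) k))

instance C0.mod (X Y : Rep k Q) : Module k (C0 X Y) :=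
  (inferInstance : Module k (∀ v : Fin Q.n, Matrix (Fin (Y.dim v)) (Fin (X.dim v)) k))

instance C1.grp (X Y : Rep k Q) : AddCommGroup (C1 X Y) :=
  (inferInstance : AddCommGroup
    (∀ a : Fin Q.m, Matrix (Fin (Y.dim (Q.tgt a))) (Fin (X.dim (Q.src a))) k))

instance C1.mod (X Y : Rep k Q) : Module k (C1 X Y) :=
  (inferInstance : Module k
    (∀ a : Fin Q.m, Matrix (Fin (Y.dim (Q.tgt a))) (Fin (X.dim (Q.src a))) k))

/-- The family `(Y_a f_{src a} - f_{tgt a} X_a)_a`. -/
def deltaFun (X Y : Rep k Q) (f : C0 X Y) : C1 X Y :=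
  fun a => Y.mat a * f (Q.src a) - f (Q.tgt a) * X.mat a

theorem delta_add (X Y : Rep k Q) (f g : C0 X Y) :
    deltaFun X Y (f + g) = deltaFun X Y f + deltaFun X Y g := by
  funext a
  change Y.mat a * (f (Q.src a) + g (Q.src a)) - (f (Q.tgt a) + g (Q.tgt a)) * X.mat a =
    (Y.mat a * f (Q.src a) - f (Q.tgt a) * X.mat a) +
      (Y.mat a * g (Q.src a) - g (Q.tgt a) * X.mat a)
  simp only [Matrix.mul_add, Matrix.add_mul]
  abel

theorem delta_smul (X Y : Rep k Q) (c : k) (f : C0 X Y) :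
    deltaFun X Y (c • f) = (RingHom.id k) c • deltaFun X Y f := by
  funext a
  change Y.mat a * (c • f (Q.src a)) - (c • f (Q.tgt a)) * X.mat a =
    c • (Y.mat a * f (Q.src a) - f (Q.tgt a) * X.mat a)
  simp only [Matrix.mul_smul, Matrix.smul_mul, smul_sub]

/-- The differential `f ↦ (Y_a f_{src a} - f_{tgt a} X_a)_a`. -/
def delta (X Y : Rep k Q) : C0 X Y →ₗ[k] C1 X Y where
  toFun := deltaFun X Y
  map_add' := delta_add X Y
  map_smul' := delta_smul X Y

/-- Homomorphisms of representations: the kernel of `delta X Y`. -/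
def Hm (X Y : Rep k Q) : Type u := LinearMap.ker (delta X Y)

instance Hm.grp (X Y : Rep k Q) : AddCommGroup (Hm X Y) :=
  (inferInstance : AddCommGroup (LinearMap.ker (delta X Y)))

instance Hm.mod (X Y : Rep k Q) : Module k (Hm X Y) :=
  (inferInstance : Module k (LinearMap.ker (delta X Y)))

/-- `Ext¹(X, Y)`: the cokernel of `delta X Y`. -/
def Ex (X Y : Rep k Q) : Type u := C1 X Y ⧸ LinearMap.range (delta X Y)

instance Ex.grp (X Y : Rep k Q) : AddCommGroup (Ex X Y) :=
  (inferInstance : AddCommGroup (C1 X Y ⧸ LinearMap.range (delta X Y)))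

instance Ex.mod (X Y : Rep k Q) : Module k (Ex X Y) :=
  (inferInstance : Module k (C1 X Y ⧸ LinearMap.range (delta X Y)))

/-- The linear map at the vertex `v`. -/
def Hm.at {X Y : Rep k Q} (f : Hm X Y) (v : Fin Q.n) : Matrix (Fin (Y.dim v)) (Fin (X.dim v)) k :=
  (Subtype.val f : C0 X Y) v

theorem hm_comm {X Y : Rep k Q} (f : Hm X Y) (a : Fin Q.m) :
    Y.mat a * f.at (Q.src a) = f.at (Q.tgt a) * X.mat a := by
  have h0 : delta X Y (Subtype.val f) = 0 := LinearMap.mem_ker.1 (Subtype.property f)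
  exact sub_eq_zero.1 (congrFun h0 a)

theorem mem_hm {X Y : Rep k Q} {f : C0 X Y}
    (h : ∀ a, Y.mat a * f (Q.src a) = f (Q.tgt a) * X.mat a) : f ∈ LinearMap.ker (delta X Y) := by
  rw [LinearMap.mem_ker]
  funext a
  exact sub_eq_zero.2 (h a)

theorem id_mem (X : Rep k Q) :
    (fun v => (1 : Matrix (Fin (X.dim v)) (Fin (X.dim v)) k) : C0 X X) ∈
      LinearMap.ker (delta X X) :=
  mem_hm fun a => by simp

/-- The identity homomorphism. -/
def idH (X : Rep k Q) : Hm X X := ⟨fun v => (1 : Matrix (Fin (X.dim v)) (Fin (X.dim v)) k), id_mem X⟩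

/-- Vertexwise product of homomorphisms. -/
def mulF {X Y Z : Rep k Q} (g : Hm Y Z) (f : Hm X Y) : C0 X Z := fun v => g.at v * f.at v

theorem mulF_mem {X Y Z : Rep k Q} (g : Hm Y Z) (f : Hm X Y) :
    mulF g f ∈ LinearMap.ker (delta X Z) :=
  mem_hm fun a => by
    change Z.mat a * (g.at (Q.src a) * f.at (Q.src a)) = g.at (Q.tgt a) * f.at (Q.tgt a) * X.mat a
    rw [← Matrix.mul_assoc, hm_comm g, Matrix.mul_assoc, hm_comm f, Matrix.mul_assoc]

/-- Composition `g ∘ f` of homomorphisms. -/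
def cmp {X Y Z : Rep k Q} (g : Hm Y Z) (f : Hm X Y) : Hm X Z := ⟨mulF g f, mulF_mem g f⟩

/-- Left multiplication by `g` on `C1`. -/
def pushF {X Y Z : Rep k Q} (g : Hm Y Z) (ξ : C1 X Y) : C1 X Z := fun a => g.at (Q.tgt a) * ξ a

/-- Right multiplication by `f` on `C1`. -/
def pullF {W X Y : Rep k Q} (f : Hm W X) (ξ : C1 X Y) : C1 W Y := fun a => ξ a * f.at (Q.src a)

theorem pushF_add {X Y Z : Rep k Q} (g : Hm Y Z) (ξ η : C1 X Y) :
    pushF g (ξ + η) = pushF g ξ + pushF g η := by
  funext a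
  exact Matrix.mul_add _ _ _

theorem pushF_smul {X Y Z : Rep k Q} (g : Hm Y Z) (c : k) (ξ : C1 X Y) :
    pushF g (c • ξ) = (RingHom.id k) c • pushF g ξ := by
  funext a
  exact Matrix.mul_smul (g.at (Q.tgt a)) c (ξ a)

theorem pullF_add {W X Y : Rep k Q} (f : Hm W X) (ξ η : C1 X Y) :
    pullF f (ξ + η) = pullF f ξ + pullF f η := by
  funext a
  exact Matrix.add_mul _ _ _

theorem pullF_smul {W X Y : Rep k Q} (f : Hm W X) (c : k) (ξ : C1 X Y) :
    pullF f (c • ξ) = (RingHom.id k) c • pullF f ξ := by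
  funext a
  exact Matrix.smul_mul c (ξ a) (f.at (Q.src a))

/-- `pushF` as a linear map. -/
def pushL {X Y Z : Rep k Q} (g : Hm Y Z) : C1 X Y →ₗ[k] C1 X Z where
  toFun := pushF g
  map_add' := pushF_add g
  map_smul' := pushF_smul g

/-- `pullF` as a linear map. -/
def pullL {W X Y : Rep k Q} (f : Hm W X) : C1 X Y →ₗ[k] C1 W Y where
  toFun := pullF f
  map_add' := pullF_add f
  map_smul' := pullF_smul f

theorem push_le {X Y Z : Rep k Q} (g : Hm Y Z) :
    LinearMap.range (delta X Y) ≤ (LinearMap.range (delta X Z)).comap (pushL g) := by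
  rintro _ ⟨f, rfl⟩
  refine ⟨fun v => g.at v * f v, ?_⟩
  funext a
  change Z.mat a * (g.at (Q.src a) * f (Q.src a)) - g.at (Q.tgt a) * f (Q.tgt a) * X.mat a =
    g.at (Q.tgt a) * (Y.mat a * f (Q.src a) - f (Q.tgt a) * X.mat a)
  rw [← Matrix.mul_assoc, hm_comm g, Matrix.mul_sub, Matrix.mul_assoc, Matrix.mul_assoc]

theorem pull_le {W X Y : Rep k Q} (f : Hm W X) :
    LinearMap.range (delta X Y) ≤ (LinearMap.range (delta W Y)).comap (pullL f) := by
  rintro _ ⟨h, rfl⟩
  refine ⟨fun v => h v * f.at v, ?_⟩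
  funext a
  change Y.mat a * (h (Q.src a) * f.at (Q.src a)) - h (Q.tgt a) * f.at (Q.tgt a) * W.mat a =
    (Y.mat a * h (Q.src a) - h (Q.tgt a) * X.mat a) * f.at (Q.src a)
  rw [Matrix.sub_mul, Matrix.mul_assoc, Matrix.mul_assoc, Matrix.mul_assoc, hm_comm f]

/-- Push-forward `g_* : Ext¹(X, Y) → Ext¹(X, Z)` of extensions along `g : Y → Z`. -/
def push {X Y Z : Rep k Q} (g : Hm Y Z) (ξ : Ex X Y) : Ex X Z :=
  Submodule.mapQ (LinearMap.range (delta X Y)) (LinearMap.range (delta X Z)) (pushL g)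
    (push_le g) ξ

/-- Pull-back `f^* : Ext¹(X, Y) → Ext¹(W, Y)` of extensions along `f : W → X`. -/
def pull {W X Y : Rep k Q} (f : Hm W X) (ξ : Ex X Y) : Ex W Y :=
  Submodule.mapQ (LinearMap.range (delta X Y)) (LinearMap.range (delta W Y)) (pullL f)
    (pull_le f) ξ

/-- `Hom_D(X, Y ⊕ ΣY) = Hom(X, Y) × Ext¹(X, Y)`. -/
def Mor (X Y : Rep k Q) : Type u := Hm X Y × Ex X Y

instance Mor.grp (X Y : Rep k Q) : AddCommGroup (Mor X Y) :=
  (inferInstance : AddCommGroup (Hm X Y × Ex X Y))

instance Mor.mod (X Y : Rep k Q) : Module k (Mor X Y) :=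
  (inferInstance : Module k (Hm X Y × Ex X Y))

/-- Composition: homomorphisms compose, extensions are pushed forward and pulled back along
homomorphisms, and the product of two extensions is zero (it lies in `Ext² = 0`). -/
def mcomp {X Y Z : Rep k Q} (g : Mor Y Z) (f : Mor X Y) : Mor X Z :=
  (cmp g.1 f.1, push g.1 f.2 + pull f.1 g.2)

/-- `X` is indecomposable: it is not zero, and each idempotent endomorphism is `0` or `1`. -/
def Indecomposable (X : Rep k Q) : Prop :=
  idH X ≠ 0 ∧ ∀ e : Hm X X, cmp e e = e → e = 0 ∨ e = idH X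

/-- An exceptional sequence: each member is indecomposable with `Ext¹(E_i, E_i) = 0`, and
`Hom(E_i, E_j) = 0 = Ext¹(E_i, E_j)` whenever `j < i`. -/
def IsExceptionalSequence {r : ℕ} (E : Fin r → Rep k Q) : Prop :=
  (∀ i, Indecomposable (E i) ∧ ∀ ξ : Ex (E i) (E i), ξ = 0) ∧
  ∀ i j, j < i → (∀ f : Hm (E i) (E j), f = 0) ∧ ∀ ξ : Ex (E i) (E j), ξ = 0

/-- `f : X → Y` is radical: `1 - g f` is invertible for each `g : Y → X`. -/
def IsRad {X Y : Rep k Q} (f : Hm X Y) : Prop :=
  ∀ g : Hm Y X, ∃ h : Hm X X, cmp h (idH X - cmp g f) = idH X ∧ cmp (idH X - cmp g f) h = idH X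

/-- The vectors `f i` lie in `U`, and their classes modulo `W` are a basis of the image of `U`. -/
def IsBasisMod {V : Type u} [AddCommGroup V] [Module k V] (U W : Submodule k V) {n : ℕ}
    (f : Fin n → V) : Prop :=
  (∀ i, f i ∈ U) ∧ LinearIndependent k (fun i => W.mkQ (f i)) ∧
    U ≤ Submodule.span k (Set.range f) ⊔ W

/-- The linear relations between the vectors `f p`. -/
def relations {V : Type u} [AddCommGroup V] [Module k V] {P : Type} (f : P → V) :
    Submodule k (P →₀ k) :=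
  LinearMap.ker (Finsupp.linearCombination k f)

section Collection

variable {r : ℕ} (E : Fin r → Rep k Q)

/-- The space of radical morphisms `E_i → E_j`. -/
def rad (i j : Fin r) : Submodule k (Hm (E i) (E j)) := Submodule.span k {f | IsRad f}

/-- The span of the composites of two radical morphisms `E_i → E_l → E_j` through members. -/
def radSq (i j : Fin r) : Submodule k (Hm (E i) (E j)) :=
  Submodule.span k {h | ∃ (l : Fin r) (f : Hm (E i) (E l)) (g : Hm (E l) (E j)),
    IsRad f ∧ IsRad g ∧ h = cmp g f}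

/-- The extension `η` is a push-forward or a pull-back of an extension along a radical morphism
between members. -/
def ExtDec (i j : Fin r) (η : Ex (E i) (E j)) : Prop :=
  (∃ (l : Fin r) (ξ : Ex (E i) (E l)) (g : Hm (E l) (E j)), IsRad g ∧ η = push g ξ) ∨
  ∃ (l : Fin r) (f : Hm (E i) (E l)) (ξ : Ex (E l) (E j)), IsRad f ∧ η = pull f ξ

/-- The span of the extensions in `Ext¹(E_i, E_j)` that satisfy `ExtDec`. -/
def extSq (i j : Fin r) : Submodule k (Ex (E i) (E j)) := Submodule.span k {η | ExtDec E i j η}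

/-- A Hom-Ext quiver of the collection: the number of arrows of each of the two kinds between two
members, and for each arrow the morphism or the extension that it names; the arrows `i → j` of the
first kind give a basis of `rad / radSq`, those of the second kind a basis of `Ext¹ / extSq`. -/
structure HomExtQuiver where
  nHom : Fin r → Fin r → ℕ
  nExt : Fin r → Fin r → ℕ
  hArr : ∀ i j, Fin (nHom i j) → Hm (E i) (E j)
  eArr : ∀ i j, Fin (nExt i j) → Ex (E i) (E j)
  hArr_basis : ∀ i j, IsBasisMod (rad E i j) (radSq E i j) (hArr i j)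
  eArr_basis : ∀ i j, IsBasisMod ⊤ (extSq E i j) (eArr i j)

end Collection

section Paths

variable {r : ℕ} {E : Fin r → Rep k Q}

/-- The vertices of the Hom-Ext quiver. -/
def Vert (_D : HomExtQuiver E) : Type := Fin r

/-- The arrows of the Hom-Ext quiver. -/
instance Vert.quiver (D : HomExtQuiver E) : Quiver (Vert D) where
  Hom i j := Fin (D.nHom i j) ⊕ Fin (D.nExt i j)

/-- The morphism `E_i → E_j` or `E_i → ΣE_j` that an arrow names. -/
def arr (D : HomExtQuiver E) (i j : Fin r) :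
    Fin (D.nHom i j) ⊕ Fin (D.nExt i j) → Mor (E i) (E j)
  | .inl a => (D.hArr i j a, 0)
  | .inr b => (0, D.eArr i j b)

/-- The morphism `E_i → E_j ⊕ ΣE_j` that a path represents: the composite of its arrows. -/
def eval (D : HomExtQuiver E) (i : Vert D) : ∀ {j : Vert D}, Quiver.Path i j → Mor (E i) (E j)
  | _, .nil => (idH (E i), 0)
  | _, .cons p a => mcomp (arr D _ _ a) (eval D i p)

/-- The part of the ideal `R` between `i` and `j`: the linear combinations of paths from `i` to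
`j` that represent zero. -/
def R (D : HomExtQuiver E) (i j : Vert D) : Submodule k (Quiver.Path i j →₀ k) :=
  relations (eval D i (j := j))

/-- `R` is generated, as an ideal of the path algebra, by paths of length at least two. -/
def Monomial (D : HomExtQuiver E) : Prop :=
  ∃ S : ∀ i j : Vert D, Set (Quiver.Path i j), (∀ i j, ∀ p ∈ S i j, 2 ≤ p.length) ∧
    ∀ i j, R D i j = Submodule.span k
      {x | ∃ (a b : Vert D) (s : Quiver.Path i a) (p : Quiver.Path a b) (t : Quiver.Path b j),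
        p ∈ S a b ∧ x = Finsupp.single ((s.comp p).comp t) 1}

end Paths

/-! ### Existence of a Hom-Ext quiver -/

section Existence

variable {V : Type u} [AddCommGroup V] [Module k V] [Module.Finite k V]

theorem exists_basis_mod (U W : Submodule k V) :
    ∃ (n : ℕ) (f : Fin n → V), IsBasisMod U W f := by
  classical
  set M : Submodule k (V ⧸ W) := U.map W.mkQ with hM
  let b := Module.finBasis k M
  have hx : ∀ i, ∃ x ∈ U, W.mkQ x = (b i : V ⧸ W) := fun i => (b i).2
  choose f hfU hf using hx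
  refine ⟨_, f, hfU, ?_, ?_⟩
  · have h1 : LinearIndependent k fun i => (b i : V ⧸ W) :=
      b.linearIndependent.map' M.subtype (Submodule.ker_subtype M)
    simpa only [hf] using h1
  · intro x hx
    have hxM : W.mkQ x ∈ M := ⟨x, hx, rfl⟩
    have h2 : Submodule.span k (Set.range fun i => (b i : V ⧸ W)) = M := by
      have := congrArg (Submodule.map M.subtype) b.span_eq
      rw [Submodule.map_span, ← Set.range_comp, Submodule.map_top, Submodule.range_subtype] at this
      exact this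
    rw [← h2] at hxM
    have h3 : Submodule.span k (Set.range fun i => (b i : V ⧸ W)) =
        (Submodule.span k (Set.range f)).map W.mkQ := by
      rw [Submodule.map_span, ← Set.range_comp]
      congr 1
      ext y
      simp only [Set.mem_range, Function.comp, hf]
    rw [h3] at hxM
    obtain ⟨y, hy, hxy⟩ := hxM
    have h4 : x - y ∈ W := by
      rw [← Submodule.Quotient.mk_eq_zero, Submodule.Quotient.mk_sub, sub_eq_zero]
      exact hxy.symm
    have h5 : x = y + (x - y) := by abel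
    rw [h5]
    exact Submodule.add_mem_sup hy h4

end Existence

instance C1.fin (X Y : Rep k Q) : Module.Finite k (C1 X Y) :=
  (inferInstance : Module.Finite k
    (∀ a : Fin Q.m, Matrix (Fin (Y.dim (Q.tgt a))) (Fin (X.dim (Q.src a))) k))

instance C0.fin (X Y : Rep k Q) : Module.Finite k (C0 X Y) :=
  (inferInstance : Module.Finite k (∀ v : Fin Q.n, Matrix (Fin (Y.dim v)) (Fin (X.dim v)) k))

instance Hm.fin (X Y : Rep k Q) : Module.Finite k (Hm X Y) :=
  (inferInstance : Module.Finite k (LinearMap.ker (delta X Y)))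

instance Ex.fin (X Y : Rep k Q) : Module.Finite k (Ex X Y) :=
  (inferInstance : Module.Finite k (C1 X Y ⧸ LinearMap.range (delta X Y)))

theorem nonempty_homExtQuiver {r : ℕ} (E : Fin r → Rep k Q) : Nonempty (HomExtQuiver E) := by
  have h1 := fun i j => exists_basis_mod (rad E i j) (radSq E i j)
  have h2 := fun i j => exists_basis_mod (V := Ex (E i) (E j)) ⊤ (extSq E i j)
  choose n f hf using h1
  choose m g hg using h2
  exact ⟨⟨n, m, f, g, hf, hg⟩⟩

/-! ### The example -/

/-- The quiver `D₄`: arrows `1 → 0`, `2 → 0`, `3 → 0`. -/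
@[reducible] def D4 : Qv := ⟨4, 3, fun a => a.succ, fun _ => 0⟩

/-- Dimension vectors of the four modules. -/
def dimT (i : Fin 4) : Fin 4 → ℕ :=
  ![![1, 1, 0, 0], ![1, 1, 1, 0], ![1, 1, 0, 1], ![0, 1, 0, 0]] i

/-- The four thin modules. -/
@[reducible] def T (k : Type u) [Field k] (i : Fin 4) : Rep k D4 where
  dim := dimT i
  mat := fun _ => Matrix.of fun _ _ => 1

/-- Sum of all entries. -/
def sg {m n : ℕ} (M : Matrix (Fin m) (Fin n) k) : k := ∑ p, ∑ q, M p q

theorem sg_of {m n : ℕ} (hm : m ≤ 1) (hn : n ≤ 1) (M : Matrix (Fin m) (Fin n) k)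
    (p : Fin m) (q : Fin n) : sg M = M p q := by
  have h1 : m = 1 := le_antisymm hm (Nat.one_le_iff_ne_zero.2 fun h => by subst h; exact p.elim0)
  have h2 : n = 1 := le_antisymm hn (Nat.one_le_iff_ne_zero.2 fun h => by subst h; exact q.elim0)
  subst h1 h2
  simp [sg, Subsingleton.elim p 0, Subsingleton.elim q 0]

theorem sg_mul {a b c : ℕ} (ha : a = 1) (hb : b = 1) (hc : c = 1)
    (M : Matrix (Fin a) (Fin b) k) (N : Matrix (Fin b) (Fin c) k) :
    sg (M * N) = sg M * sg N := by
  subst ha hb hc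
  simp [sg, Matrix.mul_apply]

theorem sg_one {a : ℕ} (ha : a = 1) : sg (1 : Matrix (Fin a) (Fin a) k) = 1 := by
  subst ha
  simp [sg]

theorem sg_zero_rows {m n : ℕ} (hm : m = 0) (M : Matrix (Fin m) (Fin n) k) : sg M = 0 := by
  subst hm
  simp [sg]

theorem sg_zero_cols {m n : ℕ} (hn : n = 0) (M : Matrix (Fin m) (Fin n) k) : sg M = 0 := by
  subst hn
  simp [sg]

theorem dimT_le (i v : Fin 4) : dimT i v ≤ 1 := by
  revert i v; decide

theorem dimT_one (i : Fin 4) : dimT i 1 = 1 := by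
  revert i; decide


/-- The scalar attached to a homomorphism: its entry at vertex `1`. -/
def ev {i j : Fin 4} (f : Hm (T k i) (T k j)) : k :=
  sg (f.at (1 : Fin 4))

theorem ev_cmp {i j l : Fin 4} (g : Hm (T k j) (T k l)) (f : Hm (T k i) (T k j)) :
    ev (cmp g f) = ev g * ev f :=
  sg_mul (dimT_one l) (dimT_one j) (dimT_one i) _ _

theorem ev_id (i : Fin 4) : ev (idH (T k i)) = 1 := sg_one (dimT_one i)

theorem sg_sub {m n : ℕ} (M N : Matrix (Fin m) (Fin n) k) : sg (M - N) = sg M - sg N := by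
  simp [sg, Finset.sum_sub_distrib]

theorem sg_smul {m n : ℕ} (c : k) (M : Matrix (Fin m) (Fin n) k) : sg (c • M) = c * sg M := by
  simp [sg, Finset.mul_sum]

/-- The entries of the differential. -/
theorem delta_apply {i j : Fin 4} (f : C0 (T k i) (T k j)) (a : Fin 3)
    (p : Fin (dimT j 0)) (q : Fin (dimT i a.succ)) :
    delta (T k i) (T k j) f a p q = sg (f (a.succ : Fin 4)) - sg (f (0 : Fin 4)) := by
  have hi0 := dimT_le i 0
  have hj0 := dimT_le j 0
  have hia := dimT_le i a.succ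
  have hja := dimT_le j a.succ
  change (((T k j).mat a : Matrix (Fin (dimT j 0)) (Fin (dimT j a.succ)) k) * (f (a.succ : Fin 4) : Matrix (Fin (dimT j a.succ)) (Fin (dimT i a.succ)) k) - (f (0 : Fin 4) : Matrix (Fin (dimT j 0)) (Fin (dimT i 0)) k) * ((T k i).mat a : Matrix (Fin (dimT i 0)) (Fin (dimT i a.succ)) k)) p q = _
  rw [Matrix.sub_apply, Matrix.mul_apply, Matrix.mul_apply]
  have e1 : ∑ l, (T k j).mat a p l * f a.succ l q = sg (f a.succ) := by
    change ∑ l, (1 : k) * f a.succ l q = _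
    simp only [one_mul, sg]
    refine Finset.sum_congr rfl fun l _ => ?_
    have h1 : ∀ q' : Fin (dimT i a.succ), q' = q := fun q' => Fin.ext (by omega)
    rw [Finset.sum_eq_single_of_mem q (Finset.mem_univ _) fun b _ hb => absurd (h1 b) hb]
  have e2 : ∑ l, f 0 p l * (T k i).mat a l q = sg (f 0) := by
    change ∑ l, f 0 p l * (1 : k) = _
    simp only [mul_one, sg]
    have h1 : ∀ p' : Fin (dimT j 0), p' = p := fun p' => Fin.ext (by omega)
    rw [Finset.sum_eq_single_of_mem p (Finset.mem_univ _) fun b _ hb => absurd (h1 b) hb]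
  exact congrArg₂ _ e1 e2

theorem sg_const {m n : ℕ} (c : k) :
    sg (Matrix.of fun (_ : Fin m) (_ : Fin n) => c) = (m : k) * (n : k) * c := by
  simp [sg, mul_assoc]

theorem comb_ext : ∀ (i j : Fin 4) (a : Fin 3), dimT j 0 = 1 → dimT i a.succ = 1 →
    dimT j a.succ = 0 →
    dimT i 0 = 1 ∧ ∀ b : Fin 3, b ≠ a → dimT j b.succ = 0 → dimT i b.succ = 0 := by
  decide

theorem dimT_eq_one {i v : Fin 4} (p : Fin (dimT i v)) : dimT i v = 1 := by
  have h1 := dimT_le i v
  have h2 := p.2
  omega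

/-- All extensions between the four modules vanish. -/
theorem ext_zero (i j : Fin 4) (ξ : Ex (T k i) (T k j)) : ξ = 0 := by
  obtain ⟨ξ, rfl⟩ := Submodule.mkQ_surjective (LinearMap.range (delta (T k i) (T k j))) ξ
  refine (Submodule.Quotient.mk_eq_zero (LinearMap.range (delta (T k i) (T k j)))).2 ?_
  obtain ⟨x0, hx0⟩ : ∃ x0 : k, x0 = - ∑ b : Fin 3, if dimT j b.succ = 0 then sg (ξ b) else 0 :=
    ⟨_, rfl⟩
  obtain ⟨x, hxz, hxs⟩ : ∃ x : Fin 4 → k, x 0 = x0 ∧
      ∀ a : Fin 3, x a.succ = sg (ξ a) + (dimT i 0 : k) * x0 :=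
    ⟨Fin.cons x0 fun a => sg (ξ a) + (dimT i 0 : k) * x0, rfl, fun a => rfl⟩
  refine ⟨fun v => Matrix.of fun _ _ => x v, ?_⟩
  funext a
  refine Matrix.ext fun p q => ?_
  have hp : dimT j 0 = 1 := dimT_eq_one p
  have hq : dimT i a.succ = 1 := dimT_eq_one q
  have hξ : sg (ξ a) = ξ a p q := sg_of hp.le hq.le _ p q
  refine (delta_apply _ a p q).trans ?_
  have e1 : sg (Matrix.of fun (_ : Fin (dimT j a.succ)) (_ : Fin (dimT i a.succ)) => x a.succ) =
      (dimT j a.succ : k) * x a.succ := by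
    rw [sg_const, hq]; simp
  have e2 : sg (Matrix.of fun (_ : Fin (dimT j 0)) (_ : Fin (dimT i 0)) => x 0) =
      (dimT i 0 : k) * x 0 := by
    rw [sg_const, hp]; simp
  refine (congrArg₂ _ e1 e2).trans ?_
  rw [hxs, hxz, ← hξ]
  by_cases h : dimT j a.succ = 0
  · obtain ⟨h1, h2⟩ := comb_ext i j a hp hq h
    have h3 : x0 = - sg (ξ a) := by
      rw [hx0, Finset.sum_eq_single_of_mem a (Finset.mem_univ _), if_pos h]
      intro b _ hb
      by_cases hb0 : dimT j b.succ = 0
      · rw [if_pos hb0]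
        exact sg_zero_cols (h2 b hb hb0) _
      · rw [if_neg hb0]
    rw [h, h1, h3]
    push_cast
    ring
  · have h1 : dimT j a.succ = 1 := by
      have := dimT_le j a.succ
      omega
    rw [h1]
    push_cast
    ring

theorem sg_hom {i j : Fin 4} (f : Hm (T k i) (T k j)) (a : Fin 3) (hj : dimT j 0 = 1)
    (hi : dimT i a.succ = 1) : sg (f.at (a.succ : Fin 4)) = sg (f.at (0 : Fin 4)) := by
  have h := delta_apply (Subtype.val f) a ⟨0, by omega⟩ ⟨0, by omega⟩
  rw [LinearMap.mem_ker.1 (Subtype.property f)] at h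
  exact (sub_eq_zero.1 h.symm)

theorem comb_supp : ∀ j v : Fin 4, v ≠ 1 → dimT j v = 1 → dimT j 0 = 1 := by decide

theorem sg_eq_ev {i j : Fin 4} (f : Hm (T k i) (T k j)) (v : Fin 4) (hi : dimT i v = 1)
    (hj : dimT j v = 1) : sg (f.at v) = ev f := by
  by_cases hv : v = 1
  · subst hv; rfl
  · have hj0 := comb_supp j v hv hj
    have h1 : sg (f.at (1 : Fin 4)) = sg (f.at (0 : Fin 4)) := sg_hom f 0 hj0 (dimT_one i)
    unfold ev
    rw [h1]
    revert hi hv
    refine Fin.cases (fun _ _ => rfl) (fun a ha _ => ?_) v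
    exact sg_hom f a hj0 ha

theorem eq_zero_of_ev {i j : Fin 4} {f : Hm (T k i) (T k j)} (h : ev f = 0) : f = 0 := by
  refine Subtype.ext (funext fun v => Matrix.ext fun p q => ?_)
  have hp : dimT j v = 1 := dimT_eq_one p
  have hq : dimT i v = 1 := dimT_eq_one q
  have h1 := sg_eq_ev f v hq hp
  rw [h, sg_of hp.le hq.le _ p q] at h1
  exact h1

theorem ev_sub {i j : Fin 4} (f g : Hm (T k i) (T k j)) : ev (f - g) = ev f - ev g :=
  sg_sub _ _

theorem ev_smul {i j : Fin 4} (c : k) (f : Hm (T k i) (T k j)) : ev (c • f) = c * ev f :=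
  sg_smul _ _

theorem ev_zero {i j : Fin 4} : ev (0 : Hm (T k i) (T k j)) = 0 := by
  have := ev_smul (0 : k) (0 : Hm (T k i) (T k j))
  rwa [zero_smul, zero_mul] at this

theorem ev_inj {i j : Fin 4} {f g : Hm (T k i) (T k j)} (h : ev f = ev g) : f = g :=
  sub_eq_zero.1 (eq_zero_of_ev (by rw [ev_sub, h, sub_self]))

/-- A combinatorial reason for `Hom(T_i, T_j) = 0`. -/
def Bad (i j : Fin 4) : Prop :=
  dimT j 0 = 1 ∧ ∃ a : Fin 3, dimT i a.succ = 1 ∧ (dimT i 0 = 0 ∨ dimT j a.succ = 0)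

instance (i j : Fin 4) : Decidable (Bad i j) := by unfold Bad; infer_instance

theorem eq_zero_of_bad {i j : Fin 4} (h : Bad i j) (f : Hm (T k i) (T k j)) : f = 0 := by
  obtain ⟨hj, a, hi, h⟩ := h
  refine eq_zero_of_ev ?_
  have h1 : sg (f.at (1 : Fin 4)) = sg (f.at (0 : Fin 4)) := sg_hom f 0 hj (dimT_one i)
  unfold ev
  rw [h1]
  rcases h with h | h
  · exact sg_zero_cols h _
  · rw [← sg_hom f a hj hi]
    exact sg_zero_rows h _

/-- A combinatorial reason for `Hom(T_i, T_j) ≠ 0`. -/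
def Good (i j : Fin 4) : Prop :=
  dimT j 0 = 1 → ∀ a : Fin 3, dimT i a.succ = 1 → dimT j a.succ = dimT i 0

instance (i j : Fin 4) : Decidable (Good i j) := by unfold Good; infer_instance

theorem exists_of_good {i j : Fin 4} (h : Good i j) : ∃ f : Hm (T k i) (T k j), ev f = 1 := by
  refine ⟨⟨fun v => Matrix.of fun _ _ => 1, ?_⟩, ?_⟩
  · refine LinearMap.mem_ker.2 ?_
    funext a
    refine Matrix.ext fun p q => ?_
    have hp : dimT j 0 = 1 := dimT_eq_one p
    have hq : dimT i a.succ = 1 := dimT_eq_one q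
    refine (delta_apply _ a p q).trans ?_
    have e1 : sg (Matrix.of fun (_ : Fin (dimT j a.succ)) (_ : Fin (dimT i a.succ)) => (1 : k)) =
        (dimT j a.succ : k) := by
      rw [sg_const, hq]; simp
    have e2 : sg (Matrix.of fun (_ : Fin (dimT j 0)) (_ : Fin (dimT i 0)) => (1 : k)) =
        (dimT i 0 : k) := by
      rw [sg_const, hp]; simp
    refine (congrArg₂ _ e1 e2).trans ?_
    rw [h hp a hq, sub_self]
    rfl
  · refine (sg_const (m := dimT j 1) (n := dimT i 1) (1 : k)).trans ?_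
    rw [dimT_one, dimT_one]
    simp

theorem comb_lt : ∀ i j : Fin 4, j < i → Bad i j := by decide

/-- The four modules form an exceptional sequence. -/
theorem exceptional : IsExceptionalSequence (T k) := by
  refine ⟨fun i => ⟨⟨?_, fun e he => ?_⟩, ext_zero i i⟩,
    fun i j hij => ⟨eq_zero_of_bad (comb_lt i j hij), ext_zero i j⟩⟩
  · intro h
    have := ev_id (k := k) i
    rw [h, ev_zero] at this
    exact zero_ne_one this
  · have h1 : ev e * ev e = ev e := by rw [← ev_cmp, he]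
    have h2 : ev e * (ev e - 1) = 0 := by rw [mul_sub, h1, mul_one, sub_self]
    rcases mul_eq_zero.1 h2 with h | h
    · exact Or.inl (eq_zero_of_ev h)
    · exact Or.inr (ev_inj (by rw [ev_id]; exact sub_eq_zero.1 h))

theorem rad_self (i : Fin 4) {f : Hm (T k i) (T k i)} (hf : f ∈ rad (T k) i i) : f = 0 := by
  have h : {f : Hm (T k i) (T k i) | IsRad f} ⊆ ((⊥ : Submodule k (Hm (T k i) (T k i))) : Set _) := by
    intro f hf
    by_contra hne
    have hc : ev f ≠ 0 := fun h => hne (by rw [eq_zero_of_ev h]; exact Submodule.zero_mem _)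
    obtain ⟨u, hu, _⟩ := hf ((ev f)⁻¹ • idH (T k i))
    have h1 := congrArg ev hu
    rw [ev_cmp, ev_sub, ev_cmp, ev_smul, ev_id, mul_one, inv_mul_cancel₀ hc, sub_self,
      mul_zero] at h1
    exact zero_ne_one h1
  exact (Submodule.mem_bot k).1 (Submodule.span_le.2 h hf)

theorem comb_or : ∀ i j : Fin 4, i ≠ j → Bad i j ∨ Bad j i := by decide

theorem cmp_zero_left {i j l : Fin 4} (f : Hm (T k i) (T k j)) :
    cmp (0 : Hm (T k j) (T k l)) f = 0 :=
  eq_zero_of_ev (by rw [ev_cmp, ev_zero, zero_mul])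

theorem cmp_zero_right {i j l : Fin 4} (g : Hm (T k j) (T k l)) :
    cmp g (0 : Hm (T k i) (T k j)) = 0 :=
  eq_zero_of_ev (by rw [ev_cmp, ev_zero, mul_zero])

theorem rad_of_ne {i j : Fin 4} (hij : i ≠ j) (f : Hm (T k i) (T k j)) : f ∈ rad (T k) i j := by
  refine Submodule.subset_span ?_
  intro g
  refine ⟨idH _, ?_⟩
  have h : cmp g f = 0 := by
    rcases comb_or i j hij with h | h
    · rw [eq_zero_of_bad h f, cmp_zero_right]
    · rw [eq_zero_of_bad h g, cmp_zero_left]
  rw [h, sub_zero]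
  have h1 : cmp (idH (T k i)) (idH (T k i)) = idH (T k i) :=
    ev_inj (by rw [ev_cmp, ev_id, mul_one])
  exact ⟨h1, h1⟩

/-- `i → j` is an arrow of the commutative square. -/
def Edge (i j : Fin 4) : Prop :=
  i ≠ j ∧ Good i j ∧ ∀ l, l = i ∨ l = j ∨ Bad i l ∨ Bad l j

instance (i j : Fin 4) : Decidable (Edge i j) := by unfold Edge; infer_instance

theorem radSq_edge {i j : Fin 4} (h : Edge i j) : radSq (T k) i j = ⊥ := by
  rw [eq_bot_iff]
  refine Submodule.span_le.2 ?_
  rintro _ ⟨l, f, g, hf, hg, rfl⟩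
  have h0 : cmp g f = 0 := by
    rcases h.2.2 l with h | h | h | h
    · subst h
      rw [rad_self l (Submodule.subset_span hf), cmp_zero_right]
    · subst h
      rw [rad_self l (Submodule.subset_span hg), cmp_zero_left]
    · rw [eq_zero_of_bad h f, cmp_zero_right]
    · rw [eq_zero_of_bad h g, cmp_zero_left]
  rw [h0]
  exact Submodule.zero_mem _

theorem exists_arrow (D : HomExtQuiver (T k)) {i j : Fin 4} (h : Edge i j) :
    ∃ a : Fin (D.nHom i j), ev (D.hArr i j a) ≠ 0 := by
  by_contra hne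
  push Not at hne
  obtain ⟨f, hf⟩ := exists_of_good (k := k) h.2.1
  have h1 := (D.hArr_basis i j).2.2 (rad_of_ne h.1 f)
  rw [radSq_edge h, sup_bot_eq] at h1
  have h2 : Set.range (D.hArr i j) ⊆ ((⊥ : Submodule k (Hm (T k i) (T k j))) : Set _) := by
    rintro _ ⟨a, rfl⟩
    rw [eq_zero_of_ev (hne a)]
    exact Submodule.zero_mem _
  have h3 := (Submodule.mem_bot k).1 (Submodule.span_le.2 h2 h1)
  rw [h3, ev_zero] at hf
  exact zero_ne_one hf

theorem not_monomial (D : HomExtQuiver (T k)) : ¬ Monomial D := by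
  classical
  rintro ⟨S, -, hS⟩
  obtain ⟨a, ha⟩ := exists_arrow D (i := 0) (j := 1) (by decide)
  obtain ⟨b, hb⟩ := exists_arrow D (i := 0) (j := 2) (by decide)
  obtain ⟨c, hc⟩ := exists_arrow D (i := 1) (j := 3) (by decide)
  obtain ⟨d, hd⟩ := exists_arrow D (i := 2) (j := 3) (by decide)
  let v0 : Vert D := (0 : Fin 4)
  let v1 : Vert D := (1 : Fin 4)
  let v2 : Vert D := (2 : Fin 4)
  let v3 : Vert D := (3 : Fin 4)
  let aa : v0 ⟶ v1 := Sum.inl a
  let bb : v0 ⟶ v2 := Sum.inl b
  let cc : v1 ⟶ v3 := Sum.inl c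
  let dd : v2 ⟶ v3 := Sum.inl d
  let p : Quiver.Path v0 v3 := (Quiver.Path.nil.cons aa).cons cc
  let q : Quiver.Path v0 v3 := (Quiver.Path.nil.cons bb).cons dd
  have hpq : q ≠ p := by
    intro h
    have h1 := Quiver.Path.obj_eq_of_cons_eq_cons h
    exact (show (2 : Fin 4) ≠ 1 by decide) h1
  have ep : ev (eval D v0 p).1 = ev (D.hArr 1 3 c) * ev (D.hArr 0 1 a) := by
    change ev (cmp (D.hArr 1 3 c) (cmp (D.hArr 0 1 a) (idH (T k 0)))) = _
    rw [ev_cmp, ev_cmp, ev_id, mul_one]
  have eq : ev (eval D v0 q).1 = ev (D.hArr 2 3 d) * ev (D.hArr 0 2 b) := by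
    change ev (cmp (D.hArr 2 3 d) (cmp (D.hArr 0 2 b) (idH (T k 0)))) = _
    rw [ev_cmp, ev_cmp, ev_id, mul_one]
  have hp0 : ev (eval D v0 p).1 ≠ 0 := by rw [ep]; exact mul_ne_zero hc ha
  have hq0 : ev (eval D v0 q).1 ≠ 0 := by rw [eq]; exact mul_ne_zero hd hb
  obtain ⟨x, hx⟩ : ∃ x : Quiver.Path v0 v3 →₀ k, x =
    Finsupp.single p (ev (eval D v0 q).1) - Finsupp.single q (ev (eval D v0 p).1) := ⟨_, rfl⟩
  have hxR : x ∈ R D v0 v3 := by
    refine LinearMap.mem_ker.2 ?_
    rw [hx, map_sub, Finsupp.linearCombination_single, Finsupp.linearCombination_single]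
    refine Prod.ext ?_ ?_
    · refine eq_zero_of_ev (i := 0) (j := 3) ?_
      change ev (ev (eval D v0 q).1 • (eval D v0 p).1 - ev (eval D v0 p).1 • (eval D v0 q).1) = 0
      rw [ev_sub, ev_smul, ev_smul]
      ring
    · exact ext_zero 0 3 _
  have hxp : p ∈ x.support := by
    rw [Finsupp.mem_support_iff, hx, Finsupp.sub_apply, Finsupp.single_eq_same,
      Finsupp.single_eq_of_ne (by exact fun h => hpq h.symm), sub_zero]
    exact hq0
  obtain ⟨W, hW⟩ : ∃ W : Set (Quiver.Path v0 v3), ∀ w, w ∈ W ↔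
      Finsupp.single w (1 : k) ∈ R D v0 v3 := ⟨{w | _}, fun w => Iff.rfl⟩
  have hsub : R D v0 v3 ≤ Finsupp.supported k k W := by
    conv_lhs => rw [hS v0 v3]
    refine Submodule.span_le.2 ?_
    rintro _ ⟨i, j, s, t, u, htS, rfl⟩
    refine Finsupp.single_mem_supported k 1 ?_
    rw [hW, hS v0 v3]
    exact Submodule.subset_span ⟨i, j, s, t, u, htS, rfl⟩
  have hpW : p ∈ W := (Finsupp.mem_supported k x).1 (hsub hxR) hxp
  rw [hW] at hpW
  have h1 := LinearMap.mem_ker.1 hpW
  rw [Finsupp.linearCombination_single, one_smul] at h1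
  apply hp0
  rw [h1]
  exact ev_zero

theorem acyclic_D4 : D4.Acyclic := by
  intro v hv
  have h1 : ∀ x y : Fin 4, Relation.TransGen (fun x y => ∃ a, D4.src a = x ∧ D4.tgt a = y) x y →
      x ≠ 0 ∧ y = 0 := by
    intro x y h
    induction h with
    | single h =>
      obtain ⟨a, rfl, rfl⟩ := h
      exact ⟨Fin.succ_ne_zero a, rfl⟩
    | tail _ h ih =>
      obtain ⟨a, _, rfl⟩ := h
      exact ⟨ih.1, rfl⟩
  obtain ⟨h2, h3⟩ := h1 v v hv
  exact h2 h3

/-- For every field `k` there are a finite acyclic quiver `Q` (of type `D₄`) and an exceptional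
sequence of four `kQ`-modules such that the ideal `R` of a Hom-Ext quiver of it, for every choice
of the arrows, is not generated by paths of length at least two. -/
theorem result (k : Type u) [Field k] :
    ∃ Q : Qv, Q.Acyclic ∧ ∃ E : Fin 4 → Rep k Q, IsExceptionalSequence E ∧
      Nonempty (HomExtQuiver E) ∧ ∀ D : HomExtQuiver E, ¬ Monomial D :=
  ⟨D4, acyclic_D4, T k, exceptional, nonempty_homExtQuiver _, not_monomial⟩

end Pool.Agent.Results.MP_2a1499_al.CommutativeSquare
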